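import Pool.Agent.L7h3.SC.Stm

/-! Project SC, part UNB. -/

namespace Pool.Agent.L7h64.SC
open Filter Topology Pool.Agent.L7h3.SC

theorem s_UNB (hDIR : S_DIR) (hHOR : S_HOR) (hTWO : S_TWO) (hPAR : S_PAR) (hCIRC : S_CIRC)
    (hFIN : S_FIN) (hCOLL : S_COLL) : S_UNB := by
  intro E _ _ _ h2 x hinj hinf hu hnc s q hs
  obtain ⟨u, hu⟩ := hu
  have hfd : FiniteDimensional ℝ E := Module.finite_of_finrank_pos (by omega)
  obtain ⟨a, b, c, hab, hac, hbc, rfl⟩ := Finset.card_eq_three.1 hs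
  rcases Set.eq_empty_or_nonempty {p : ℕ → E | Copy x p ∧ ∀ i ∈ ({a, b, c} : Finset ℕ), p i = q i}
    with h0 | ⟨p₀, hp₀⟩
  · rw [h0]; exact Set.countable_empty
  -- the values
  have hval : ∀ p : ℕ → E, (Copy x p ∧ ∀ i ∈ ({a, b, c} : Finset ℕ), p i = q i) →
      p a = q a ∧ p b = q b ∧ p c = q c := fun p hp =>
    ⟨hp.2 a (by simp), hp.2 b (by simp), hp.2 c (by simp)⟩
  have hda : ∀ p : ℕ → E, (Copy x p ∧ ∀ i ∈ ({a, b, c} : Finset ℕ), p i = q i) → ∀ j,
      ‖p j - q a‖ = dist (x j) (x a) := by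
    intro p hp j
    rw [← (hval p hp).1, ← dist_eq_norm, hp.1]
  have hdb : ∀ p : ℕ → E, (Copy x p ∧ ∀ i ∈ ({a, b, c} : Finset ℕ), p i = q i) → ∀ j,
      ‖p j - q b‖ = dist (x j) (x b) := by
    intro p hp j
    rw [← (hval p hp).2.1, ← dist_eq_norm, hp.1]
  have hdc : ∀ p : ℕ → E, (Copy x p ∧ ∀ i ∈ ({a, b, c} : Finset ℕ), p i = q i) → ∀ j,
      ‖p j - q c‖ = dist (x j) (x c) := by
    intro p hp j
    rw [← (hval p hp).2.2, ← dist_eq_norm, hp.1]
  obtain ⟨e1, e2, e3⟩ := hval p₀ hp₀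
  have dab : dist (x a) (x b) = dist (q a) (q b) := by rw [← e1, ← e2, hp₀.1]
  have dbc : dist (x b) (x c) = dist (q b) (q c) := by rw [← e2, ← e3, hp₀.1]
  have dac : dist (x a) (x c) = dist (q a) (q c) := by rw [← e1, ← e3, hp₀.1]
  have hqab : q a ≠ q b := by
    intro h
    rw [h, dist_self, dist_eq_zero] at dab
    exact hab (hinj dab)
  -- the subsequence
  obtain ⟨c₀, -, φ, hφ, hφc⟩ := (isCompact_Icc (a := -dist (x a) (x b))
    (b := dist (x a) (x b))).tendsto_subseq (x := fun j => dist (x j) (x b) - dist (x j) (x a)) (by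
      intro j
      have h1 := dist_triangle (x j) (x a) (x b)
      have h2 := dist_triangle (x j) (x b) (x a)
      rw [dist_comm (x b) (x a)] at h2
      constructor <;> linarith)
  have hV := hTWO E h2 (q b - q a) c₀ (sub_ne_zero.2 hqab.symm)
  set V := {v : E | ‖v‖ = 1 ∧ ∃ ψ : E →L[ℝ] ℝ, ‖ψ‖ ≤ 1 ∧ ψ v = 1 ∧ ψ (q b - q a) = -c₀} with hVdef
  have hdir : ∀ p : ℕ → E, (Copy x p ∧ ∀ i ∈ ({a, b, c} : Finset ℕ), p i = q i) → ∃ v ∈ V,
      Tendsto (fun j => ‖p j - q a‖⁻¹ • (p j - q a)) atTop (𝓝 v) := by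
    intro p hp
    obtain ⟨v, hv1, hv⟩ := hDIR E x p a u hp.1 (hinf a) (hu a)
    rw [(hval p hp).1] at hv
    refine ⟨v, ⟨hv1, ?_⟩, hv⟩
    refine hHOR E (fun n => p (φ n) - q a) v (q b - q a) c₀ ?_ ?_ ?_
    · have h3 : (fun n => ‖p (φ n) - q a‖) = (fun j => dist (x j) (x a)) ∘ φ := by
        funext n
        exact hda p hp _
      rw [h3]
      exact (hinf a).comp hφ.tendsto_atTop
    · exact hv.comp hφ.tendsto_atTop
    · have h3 : (fun n => ‖p (φ n) - q a - (q b - q a)‖ - ‖p (φ n) - q a‖) =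
          (fun j => dist (x j) (x b) - dist (x j) (x a)) ∘ φ := by
        funext n
        rw [sub_sub_sub_cancel_right, hda p hp, hdb p hp]
        rfl
      rw [h3]
      exact hφc
  have hsub : {p : ℕ → E | Copy x p ∧ ∀ i ∈ ({a, b, c} : Finset ℕ), p i = q i} ⊆
      ⋃ v ∈ V, {p : ℕ → E | (Copy x p ∧ ∀ i ∈ ({a, b, c} : Finset ℕ), p i = q i) ∧
        Tendsto (fun j => ‖p j - q a‖⁻¹ • (p j - q a)) atTop (𝓝 v)} := by
    intro p hp
    obtain ⟨v, hv, hv2⟩ := hdir p hp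
    exact Set.mem_biUnion hv ⟨hp, hv2⟩
  refine Set.Countable.mono hsub (Set.Countable.biUnion hV.countable ?_)
  intro v _
  refine hFIN E _ (fun j => {z | dist z (q a) = dist (x j) (x a) ∧ dist z (q b) = dist (x j) (x b)})
    (fun j => (hCIRC E h2 _ _ _ _ hqab).countable) ?_ ?_
  · intro p hp j
    refine ⟨?_, ?_⟩
    · rw [dist_eq_norm]; exact hda p hp.1 j
    · rw [dist_eq_norm]; exact hdb p hp.1 j
  · intro p hp p' hp'
    by_contra hinfi
    have hfr : ∃ᶠ j in atTop, p j ≠ p' j := Nat.frequently_atTop_iff_infinite.2 hinfi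
    obtain ⟨θ, hθ, hne⟩ := extraction_of_frequently_atTop hfr
    have key : ∀ d : E, (∀ j, ‖p j - d‖ = ‖p' j - d‖) → ∃ r : ℝ, d - q a = r • v := by
      intro d hd
      refine hPAR E h2 (fun n => p (θ n) - q a) (fun n => p' (θ n) - q a) v (d - q a) ?_ ?_ ?_ ?_ ?_
        ?_
      · intro n h
        exact hne n (sub_left_injective h)
      · intro n
        exact (hda p hp.1 _).trans (hda p' hp'.1 _).symm
      · have h3 : (fun n => ‖p (θ n) - q a‖) = (fun j => dist (x j) (x a)) ∘ θ := by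
          funext n
          exact hda p hp.1 _
        rw [h3]
        exact (hinf a).comp hθ.tendsto_atTop
      · exact hp.2.comp hθ.tendsto_atTop
      · exact hp'.2.comp hθ.tendsto_atTop
      · intro n
        show ‖p (θ n) - q a - (d - q a)‖ = ‖p' (θ n) - q a - (d - q a)‖
        rw [sub_sub_sub_cancel_right, sub_sub_sub_cancel_right]
        exact hd _
    obtain ⟨r, hr⟩ := key (q b) (fun j => (hdb p hp.1 j).trans (hdb p' hp'.1 j).symm)
    obtain ⟨r', hr'⟩ := key (q c) (fun j => (hdc p hp.1 j).trans (hdc p' hp'.1 j).symm)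
    have hcol : Collinear ℝ {q a, q b, q c} := by
      rw [collinear_iff_of_mem (p₀ := q a) (by simp)]
      refine ⟨v, ?_⟩
      intro z hz
      simp only [Set.mem_insert_iff, Set.mem_singleton_iff] at hz
      rcases hz with rfl | rfl | rfl
      · exact ⟨0, by simp⟩
      · exact ⟨r, by rw [vadd_eq_add, ← hr]; abel⟩
      · exact ⟨r', by rw [vadd_eq_add, ← hr']; abel⟩
    exact hnc a b c hab hac hbc (hCOLL E _ _ _ _ _ _ dab dbc dac hcol)

end Pool.Agent.L7h64.SC
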